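import Pool.Agent.H.MP_6995cd_al.M
namespace Pool.Agent.Results.MP_6995cd_al.NoIdem
open Matrix MvPolynomial
open scoped Kronecker
universe u v

abbrev Rn (R : Type u) (G : Type v) [CommRing R] [Group G] := Σ n : ℕ, G →* GL (Fin n) R

def mat {R : Type u} {G : Type v} [CommRing R] [Group G] (M : Rn R G) (g : G) :
    Matrix (Fin M.1) (Fin M.1) R := (M.2 g).val

def Eqv {R : Type u} {G : Type v} [CommRing R] {ι κ : Type} [Fintype ι] [DecidableEq ι]
    [Fintype κ] [DecidableEq κ] (A : G → Matrix ι ι R) (B : G → Matrix κ κ R) : Prop :=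
  ∃ (P : Matrix κ ι R) (Q : Matrix ι κ R), P * Q = 1 ∧ Q * P = 1 ∧ ∀ g, P * A g = B g * P

def rel (R : Type u) (G : Type v) [CommRing R] [Group G] : Set (MvPolynomial (Rn R G) ℤ) :=
  {x | (∃ K M N : Rn R G, Eqv (mat K) (fun g => fromBlocks (mat M g) 0 0 (mat N g)) ∧
          x = X K - (X M + X N)) ∨
       (∃ K M N : Rn R G, Eqv (mat K) (fun g => mat M g ⊗ₖ mat N g) ∧ x = X K - X M * X N) ∨
       (∃ K : Rn R G, Eqv (mat K) (fun _ => (1 : Matrix Unit Unit R)) ∧ x = X K - 1)}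

open Pool.Agent.H.MP_6995cd_al

section
variable {R : Type u} {G : Type v} [CommRing R] [Group G]

abbrev ofRn (M : Rn R G) : UR R G :=
  ⟨⟨Fin M.1, mat M, fun g h => by simp [mat]⟩, by simp [mat]⟩

noncomputable def toRn (A : UR R G) : Rn R G :=
  ⟨Fintype.card A.1.ι, MonoidHom.toHomUnits
    { toFun := fun g => (A.1.ρ g).submatrix (Fintype.equivFin _).symm (Fintype.equivFin _).symm
      map_one' := by rw [A.2, submatrix_one_equiv]
      map_mul' := fun g h => by rw [A.1.mul, submatrix_mul_equiv] }⟩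

lemma iso_toRn (A : UR R G) : (ofRn (toRn A)).1.Iso A.1 :=
  Rp.iso_of_equiv (Fintype.equivFin _).symm fun _ _ _ => rfl

lemma eqv_iff (A B : UR R G) : Eqv A.1.ρ B.1.ρ ↔ A.1.Iso B.1 := by
  constructor
  · rintro ⟨P, Q, h1, h2, h3⟩
    refine ⟨P, Q, h3, fun g => ?_, by rw [h2, A.2], by rw [h1, B.2]⟩
    calc Q * B.1.ρ g = Q * (B.1.ρ g * P) * Q := by
          rw [Matrix.mul_assoc, Matrix.mul_assoc, h1, Matrix.mul_one]
      _ = _ := by rw [← h3, ← Matrix.mul_assoc, h2, Matrix.one_mul]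
  · rintro ⟨P, Q, h1, -, h3, h4⟩
    exact ⟨P, Q, h4.trans B.2, h3.trans A.2, h1⟩

end

theorem result (R : Type u) (G : Type v) [CommRing R] [Group G] [Finite G]
    (e : MvPolynomial (Rn R G) ℤ ⧸ Ideal.span (rel R G)) (he : e * e = e) : e = 0 ∨ e = 1 := by
  let π := Ideal.Quotient.mk (Ideal.span (rel R G))
  have hr : ∀ x ∈ rel R G, π x = 0 := fun x hx =>
    Ideal.Quotient.eq_zero_iff_mem.2 (Ideal.subset_span hx)
  have r2 : ∀ K M N : Rn R G, (ofRn K).1.Iso ((ofRn M).sum (ofRn N)).1 →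
      π (X K) = π (X M) + π (X N) := fun K M N h => by
    have := hr _ (Or.inl ⟨K, M, N, (eqv_iff _ _).2 h, rfl⟩)
    rwa [map_sub, map_add, sub_eq_zero] at this
  have r3 : ∀ K M N : Rn R G, (ofRn K).1.Iso ((ofRn M).ten (ofRn N)).1 →
      π (X K) = π (X M) * π (X N) := fun K M N h => by
    have := hr _ (Or.inr (Or.inl ⟨K, M, N, (eqv_iff _ _).2 h, rfl⟩))
    rwa [map_sub, map_mul, sub_eq_zero] at this
  have r4 : ∀ K : Rn R G, (ofRn K).1.Iso (UR.one : UR R G).1 → π (X K) = 1 := fun K h => by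
    have := hr _ (Or.inr (Or.inr ⟨K, (eqv_iff _ _).2 h, rfl⟩))
    rwa [map_sub, map_one, sub_eq_zero] at this
  have r1 : ∀ K M : Rn R G, (ofRn K).1.Iso (ofRn M).1 → π (X K) = π (X M) := fun K M h => by
    rw [r3 K M (toRn UR.one) (h.trans (Rp.Iso.symm ((Rp.Iso.ten (Rp.Iso.refl _)
      (iso_toRn UR.one)).trans (S.mk_eq.1 (by rw [S.mk_ten, S.mk_one, mul_one]))))),
      r4 _ (iso_toRn _), mul_one]
  let c : UR R G → MvPolynomial (Rn R G) ℤ ⧸ Ideal.span (rel R G) := fun A => π (X (toRn A))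
  have c1 : ∀ A B : UR R G, A.1.Iso B.1 → c A = c B := fun A B h =>
    r1 _ _ ((iso_toRn A).trans (h.trans (iso_toRn B).symm))
  have c2 : ∀ A B, c (A.sum B) = c A + c B := fun A B =>
    r2 _ _ _ ((iso_toRn _).trans ((iso_toRn A).symm.sum (iso_toRn B).symm))
  have c3 : ∀ A B, c (A.ten B) = c A * c B := fun A B =>
    r3 _ _ _ ((iso_toRn _).trans ((iso_toRn A).symm.ten (iso_toRn B).symm))
  have c4 : c UR.one = 1 := r4 _ (iso_toRn _)
  have c0 : c UR.zero = 0 := by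
    have := c2 UR.zero UR.zero
    rwa [c1 _ UR.zero (S.mk_eq.1 (by rw [S.mk_sum, S.mk_zero, add_zero])), left_eq_add] at this
  let f : MvPolynomial (Rn R G) ℤ →+* K R G := eval₂Hom (Int.castRingHom _) fun M => cl (ofRn M).1
  have hf : ∀ x ∈ Ideal.span (rel R G), f x = 0 := fun x hx => by
    refine (Ideal.span_le.2 ?_ : Ideal.span (rel R G) ≤ RingHom.ker f) hx
    rintro _ (⟨K, M, N, h, rfl⟩ | ⟨K, M, N, h, rfl⟩ | ⟨K, h, rfl⟩)
    · have := cl_iso ((eqv_iff (ofRn K) ((ofRn M).sum (ofRn N))).1 h)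
      rw [cl_sum] at this
      simp [f, this]
    · have := cl_iso ((eqv_iff (ofRn K) ((ofRn M).ten (ofRn N))).1 h)
      rw [cl_ten] at this
      simp [f, this]
    · have := cl_iso ((eqv_iff (ofRn K) UR.one).1 h)
      rw [cl_one] at this
      simp [f, this]
  have hex : ∀ x : MvPolynomial (Rn R G) ℤ, ∃ A B, π x = c A - c B := fun x => by
    induction x using MvPolynomial.induction_on with
    | C a =>
      induction a using Int.induction_on with
      | zero => exact ⟨UR.zero, UR.zero, by simp⟩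
      | succ n ih =>
        obtain ⟨A, B, h⟩ := ih
        exact ⟨A.sum UR.one, B, by rw [map_add, map_add, h, c2, c4, map_one, map_one]; ring⟩
      | pred n ih =>
        obtain ⟨A, B, h⟩ := ih
        exact ⟨A, B.sum UR.one, by rw [map_sub, map_sub, h, c2, c4, map_one, map_one]; ring⟩
    | add p q hp hq =>
      obtain ⟨A, B, h⟩ := hp
      obtain ⟨C, D, h'⟩ := hq
      exact ⟨A.sum C, B.sum D, by rw [map_add, h, h', c2, c2]; ring⟩
    | mul_X p M hp =>
      obtain ⟨A, B, h⟩ := hp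
      refine ⟨A.ten (ofRn M), B.ten (ofRn M), ?_⟩
      rw [map_mul, h, c3, c3, r1 M (toRn (ofRn M)) (iso_toRn _).symm]
      ring
  obtain ⟨x, rfl⟩ := Ideal.Quotient.mk_surjective e
  obtain ⟨A, B, h⟩ := hex x
  have h' : Ideal.Quotient.mk (Ideal.span (rel R G)) x = c A - c B := h
  rw [h'] at he ⊢
  refine glob c c1 c2 c3 c4 (Ideal.Quotient.lift _ f hf) (fun A => ?_) A B he
  show f (X (toRn A)) = _
  simp only [f, coe_eval₂Hom, eval₂_X]
  exact cl_iso (iso_toRn A)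

end Pool.Agent.Results.MP_6995cd_al.NoIdem
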